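import Mathlib
import Pool.Agent.Run7.h452.Fin2

/-!
# Equations with length constraints in free groups

For every `k ≥ 2` there is no algorithm which decides, for every finite system of equations over
the free group `F` with `k` free generators and every finite system of integer linear equations
between the lengths of the variables, whether some solution of the equations satisfies the length
constraints.
-/

set_option autoImplicit false

namespace Pool.Agent.Results.MP_57b0a1_lc.FreeGroupUndecidable

/-- A word over the letters `a ∈ Fin k`, the variables `x_0, x_1, ...` and their inverses:
`(Sum.inl a, true)` is the letter `a`, `(Sum.inl a, false)` its inverse, `(Sum.inr j, true)` is the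
variable `x_j` and `(Sum.inr j, false)` its inverse. -/
abbrev Word (k : ℕ) : Type := List ((Fin k ⊕ ℕ) × Bool)

/-- The element of the free group with basis `Fin k` which a word represents when `g j` is
substituted for `x_j`, every `j`. -/
def eval {k : ℕ} (g : ℕ → FreeGroup (Fin k)) (w : Word k) : FreeGroup (Fin k) :=
  FreeGroup.lift (Sum.elim FreeGroup.of g) (FreeGroup.mk w)

/-- An integer linear equation between the lengths of the variables: the pair `(l, d)` stands for
`∑ c * |x_j| = d`, the sum over the entries `(j, c)` of the list `l`. -/
abbrev LinEq : Type := List (ℕ × ℤ) × ℤ

/-- The linear equation holds for the lengths `ℓ j` of the `x_j`. -/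
def LinEq.Holds (ℓ : ℕ → ℕ) (e : LinEq) : Prop :=
  (e.1.map fun p => p.2 * (ℓ p.1 : ℤ)).sum = e.2

/-- The inputs of the decision problem: a finite system of equations `u = v` between words, and a
length constraint, that is, a finite system of linear equations. -/
abbrev Input (k : ℕ) : Type := List (Word k × Word k) × List LinEq

/-- Some solution of the equations in the free group satisfies the length constraint. The length
of a group element is the number of letters of its freely reduced word, `FreeGroup.norm`. -/
def Solvable (k : ℕ) (I : Input k) : Prop :=
  ∃ g : ℕ → FreeGroup (Fin k), (∀ e ∈ I.1, eval g e.1 = eval g e.2) ∧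
    ∀ c ∈ I.2, LinEq.Holds (fun j => (g j).norm) c

/-- For every nonabelian free group of finite rank `k ≥ 2`, the decision problem for equations
with length constraints is undecidable. -/
theorem result : ∀ k : ℕ, 2 ≤ k → ¬ ComputablePred (Solvable k) :=
  fun k hk => Run7.h452.group_undec k hk

end Pool.Agent.Results.MP_57b0a1_lc.FreeGroupUndecidable
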